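import Pool.Agent.H57.CST.Lft1

/-!
# Row LFT: a transversal rational zero gives a rational zero off `x = 0`
-/

open Polynomial

namespace Pool.Agent.H57.CST

open Pool.Agent.H51.CST

noncomputable section

/-- the variables in the range of `s` are kept, the others are replaced by constants -/
def Th {k σ : Type} [Field k] {n : ℕ} (s : Fin n → σ) (z0 : σ → k) :
    MvPolynomial (Option σ) k →ₐ[k] MvPolynomial (Unit ⊕ Fin n) k[X] :=
  open Classical in
  MvPolynomial.aeval fun o => o.elim (MvPolynomial.C X) fun t =>
    if h : ∃ j, s j = t then MvPolynomial.X (Sum.inr h.choose) else MvPolynomial.C (C (z0 t))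

/-- the point of `σ` corresponding to the values of the kept variables -/
def ext' {k σ : Type} {n : ℕ} (s : Fin n → σ) (z0 : σ → k) (p : Fin n → k) (t : σ) : k :=
  open Classical in
  if h : ∃ j, s j = t then p h.choose else z0 t

theorem ext'_self {k σ : Type} {n : ℕ} {s : Fin n → σ} {z0 : σ → k} :
    (ext' s z0 fun j => z0 (s j)) = z0 := by
  ext t
  by_cases h : ∃ j, s j = t
  · unfold ext'
    rw [dif_pos h]
    exact congrArg z0 h.choose_spec
  · unfold ext'
    rw [dif_neg h]

variable {k σ : Type} [Field k] {n : ℕ} {s : Fin n → σ} {z0 : σ → k}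

theorem eval_Th (x : k) (p : Unit ⊕ Fin n → k) (P : MvPolynomial (Option σ) k) :
    MvPolynomial.eval₂Hom (evalRingHom x) p (Th s z0 P) =
      MvPolynomial.eval (pnt x (ext' s z0 fun j => p (Sum.inr j))) P := by
  have : (MvPolynomial.eval₂Hom (evalRingHom x) p).comp (Th s z0).toRingHom =
      MvPolynomial.eval (pnt x (ext' s z0 fun j => p (Sum.inr j))) := by
    refine MvPolynomial.ringHom_ext (fun a => ?_) fun o => ?_
    · simp [Th]
    · cases o with
      | none => simp [Th, pnt]
      | some t =>
        by_cases h : ∃ j, s j = t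
        · simp [Th, pnt, ext', h]
        · simp [Th, pnt, ext', h]
  exact congrArg (fun F => F P) this

theorem pderiv_inl (u : Unit) (P : MvPolynomial (Option σ) k) :
    MvPolynomial.pderiv (Sum.inl u) (Th s z0 P) = 0 := by
  induction P using MvPolynomial.induction_on with
  | C a => simp [Th]
  | add p q hp hq => rw [map_add, map_add, hp, hq, add_zero]
  | mul_X p o hp =>
    rw [map_mul, Derivation.leibniz, hp, smul_zero, add_zero]
    cases o with
    | none => simp [Th]
    | some t =>
      by_cases h : ∃ j, s j = t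
      · simp [Th, h]
      · simp [Th, h]

theorem pderiv_inr (hs : Function.Injective s) (j : Fin n) (P : MvPolynomial (Option σ) k) :
    MvPolynomial.pderiv (Sum.inr j) (Th s z0 P) =
      Th s z0 (MvPolynomial.pderiv (some (s j)) P) := by
  classical
  induction P using MvPolynomial.induction_on with
  | C a => simp [Th]
  | add p q hp hq => rw [map_add, map_add, map_add, map_add, hp, hq]
  | mul_X p o hp =>
    have ho : MvPolynomial.pderiv (Sum.inr j) (Th s z0 (MvPolynomial.X o)) =
        Th s z0 (MvPolynomial.pderiv (some (s j)) (MvPolynomial.X o)) := by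
      cases o with
      | none => simp [Th]
      | some t =>
        by_cases h : ∃ j, s j = t
        · have h1 := h.choose_spec
          simp only [Th, MvPolynomial.aeval_X, Option.elim_some, dif_pos h,
            MvPolynomial.pderiv_X, Pi.single_apply, Sum.inr.injEq, Option.some.injEq]
          by_cases h2 : h.choose = j
          · rw [if_pos h2, if_pos (by rw [← h1, h2]), map_one]
          · rw [if_neg h2, if_neg (fun h3 => h2 (hs (h1.trans h3))), map_zero]
        · have h1 : s j ≠ t := fun h2 => h ⟨j, h2⟩
          simp only [Th, MvPolynomial.aeval_X, Option.elim_some, dif_neg h,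
            MvPolynomial.pderiv_X, Pi.single_apply, MvPolynomial.pderiv_C, Option.some.injEq]
          rw [if_neg (Ne.symm h1), map_zero]
    rw [map_mul, Derivation.leibniz, hp, ho, Derivation.leibniz, map_add, smul_eq_mul, smul_eq_mul,
      smul_eq_mul, smul_eq_mul, map_mul, map_mul]

theorem inj_of_det {A σ : Type} [CommRing A] {n : ℕ} (s : Fin n → σ) (f : Fin n → σ → A)
    (h : (Matrix.of fun i j => f i (s j)).det ≠ 0) : Function.Injective s := by
  intro a b hab
  by_contra hne
  exact h (Matrix.det_zero_of_column_eq hne fun i => by simp [hab])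

theorem pf_LFT : T_LFT := by
  intro k _ hk σ _ n G z0 s hG hdet H hH
  classical
  have hs : Function.Injective s := inj_of_det s (fun i t => MvPolynomial.eval (pnt 0 z0)
      (MvPolynomial.pderiv (some t) (G i))) hdet
  let J : MvPolynomial (Option σ) k :=
    (Matrix.of fun i j => MvPolynomial.pderiv (some (s j)) (G i)).det
  have hJ : MvPolynomial.eval (pnt 0 z0) J ≠ 0 := by
    have : MvPolynomial.eval (pnt 0 z0) J = (Matrix.of fun i j => MvPolynomial.eval (pnt 0 z0)
      (MvPolynomial.pderiv (some (s j)) (G i))).det := by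
      rw [RingHom.map_det]
      rfl
    rwa [this]
  let v : Unit ⊕ Fin n → MvPolynomial (Unit ⊕ Fin n) k[X] := Sum.elim
    (fun _ => MvPolynomial.X (Sum.inl ()) * Th s z0 (J * H) - 1) (fun i => Th s z0 (G i))
  have hdetv : (Matrix.of fun i j => MvPolynomial.pderiv i (v j)).det =
      Th s z0 (J * H) * Th s z0 J := by
    have hb : (Matrix.of fun i j => MvPolynomial.pderiv i (v j)) = Matrix.fromBlocks
        (Matrix.of fun _ _ => Th s z0 (J * H)) 0
        (Matrix.of fun i _ => MvPolynomial.pderiv (Sum.inr i) (v (Sum.inl ())))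
        (Matrix.of fun i j => Th s z0 (MvPolynomial.pderiv (some (s i)) (G j))) := by
      refine Matrix.ext fun i j => ?_
      rcases i with u | i <;> rcases j with w | j
      · simp only [v, Matrix.of_apply, Sum.elim_inl, Matrix.fromBlocks_apply₁₁]
        rw [map_sub, Derivation.leibniz, pderiv_inl, MvPolynomial.pderiv_X_self]
        simp
      · simp only [v, Matrix.of_apply, Sum.elim_inr, Matrix.fromBlocks_apply₁₂]
        rw [pderiv_inl]
        rfl
      · simp
      · simp [v, pderiv_inr hs]
    rw [hb, Matrix.det_fromBlocks_zero₁₂]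
    congr 1
    · simp
    · rw [← Matrix.det_transpose]
      have : Th s z0 J = (Th s z0).toRingHom J := rfl
      rw [this, RingHom.map_det]
      rfl
  have hu : IsUnit (Ideal.Quotient.mk (Ideal.span (Set.range v))
      (Matrix.of fun i j => MvPolynomial.pderiv i (v j)).det) := by
    have h1 : Ideal.Quotient.mk (Ideal.span (Set.range v)) (v (Sum.inl ())) = 0 :=
      Ideal.Quotient.eq_zero_iff_mem.2 (Ideal.subset_span ⟨_, rfl⟩)
    have h2 : Ideal.Quotient.mk (Ideal.span (Set.range v)) (Th s z0 (J * H)) *
        Ideal.Quotient.mk (Ideal.span (Set.range v)) (MvPolynomial.X (Sum.inl ())) = 1 := by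
      rw [← map_mul, ← sub_eq_zero, ← map_one (Ideal.Quotient.mk (Ideal.span (Set.range v))),
        ← map_sub, mul_comm]
      exact h1
    have h3 : IsUnit (Ideal.Quotient.mk (Ideal.span (Set.range v)) (Th s z0 (J * H))) :=
      IsUnit.of_mul_eq_one _ h2
    rw [hdetv, map_mul]
    refine h3.mul ?_
    rw [map_mul, map_mul] at h3
    exact (IsUnit.mul_iff.1 h3).1
  obtain ⟨x, p, hx, hp⟩ := exists_zero hk v hu
    (Sum.elim (fun _ => (MvPolynomial.eval (pnt 0 z0) (J * H))⁻¹) fun j => z0 (s j)) (by
      have hz : ∀ P, MvPolynomial.eval₂Hom (evalRingHom 0)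
          (Sum.elim (fun _ => (MvPolynomial.eval (pnt 0 z0) (J * H))⁻¹) fun j => z0 (s j))
          (Th s z0 P) = MvPolynomial.eval (pnt 0 z0) P := by
        intro P
        rw [eval_Th]
        simp only [Sum.elim_inr]
        rw [ext'_self]
      rintro (⟨⟩ | i)
      · simp only [v, Sum.elim_inl, map_sub, map_one]
        rw [map_mul, hz, MvPolynomial.eval₂Hom_X']
        simp only [Sum.elim_inl]
        rw [inv_mul_cancel₀, sub_self]
        rw [map_mul]
        exact mul_ne_zero hJ hH
      · simp only [v, Sum.elim_inr]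
        rw [hz]
        exact hG i)
  refine ⟨x, ext' s z0 fun j => p (Sum.inr j), hx, fun i => ?_, ?_⟩
  · rw [← eval_Th]
    exact hp (Sum.inr i)
  · intro h
    have h1 := hp (Sum.inl ())
    simp only [v, Sum.elim_inl] at h1
    rw [map_sub, map_mul, eval_Th, map_mul, h, mul_zero, mul_zero, map_one, zero_sub] at h1
    exact one_ne_zero (neg_eq_zero.1 h1)

end

end Pool.Agent.H57.CST
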