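import Pool.Agent.H57.CST.Fin1

/-!
# Row FIN: rational points off a given curve
-/

open Polynomial

namespace Pool.Agent.H57.CST

open Pool.Agent.H51.CST

/-- the polynomials of bounded weight in the filtration -/
theorem mk_mem_F1 (hFIL : T_FIL) {k : Type} [Field k] {d e : ℕ} (Q : Dat k d e) {D : ℕ}
    {g : k[X][X]} (hd : g.natDegree ≤ D) (hc : ∀ j, (g.coeff j).natDegree ≤ D) :
    AdjoinRoot.mk Q.mu g ∈ F1 Q.mu e (D + e * D) := by
  obtain ⟨h1, h2, h3, h4, h5, h6, h7, h8⟩ := hFIL k (AdjoinRoot Q.mu) (xR Q.mu) (yR Q.mu) 1 e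
  have hpow : ∀ j, yR Q.mu ^ j ∈ Fil k (xR Q.mu) (yR Q.mu) 1 e (e * j) := by
    intro j
    induction j with
    | zero => simpa using h3 1
    | succ j ih =>
      rw [pow_succ, Nat.mul_succ]
      exact h2 _ _ _ _ ih h5
  have hx : ∀ f : k[X], AdjoinRoot.of Q.mu f = aeval (xR Q.mu) f := by
    intro f
    have : (Algebra.ofId k[X] (AdjoinRoot Q.mu)).restrictScalars k = aeval (xR Q.mu) := by
      ext
      simp [xR]
    exact congrArg (fun F => F f) this
  have hg : AdjoinRoot.mk Q.mu g = ∑ j ∈ Finset.range (g.natDegree + 1),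
      aeval (xR Q.mu) (g.coeff j) * yR Q.mu ^ j := by
    conv_lhs => rw [g.as_sum_range_C_mul_X_pow]
    rw [map_sum]
    refine Finset.sum_congr rfl fun j _ => ?_
    rw [map_mul, map_pow, AdjoinRoot.mk_X, AdjoinRoot.mk_C, hx]
    rfl
  rw [hg]
  refine Submodule.sum_mem _ fun j hj => ?_
  have hj' : j ≤ D := by
    have := Finset.mem_range.1 hj
    omega
  refine h1 (D + e * j) _ (by gcongr) ?_
  exact h2 _ _ _ _ (h7 _ _ (hc j)) (hpow j)

theorem pf_FIN (hFIL : T_FIL) (hRED : T_RED) (_hCNV : T_CNV) (hPIG : T_PIG)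
    (hCOR : T_COR) : T_FIN := by
  intro D
  choose N0 hN0 using fun d => hCOR (d + 1) (D + 1) (Nat.succ_pos d) (Nat.succ_pos D)
  let H : ℕ → ℕ := fun d =>
    pig (D + (D + 1) * D) (D + 1) d + (D + (D + 1) * D) + 2 * (D + 1) * d
  refine ⟨∑ d ∈ Finset.range (D + 1), (4 * (d + 1) * (H (d + 1) + 1) + N0 d) + 1, ?_⟩
  intro k _ _ hk G g hG hGd hGc hgd hgc y0 h0 h1 hg0
  obtain ⟨d, Q, φ, hd1, hdD, hinj, hder, hdvd, hφ⟩ := branch hG hGd hGc h0 h1
  obtain ⟨d', rfl⟩ : ∃ d', d = d' + 1 := ⟨d - 1, by omega⟩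
  have hφmk : ∀ P, φ (AdjoinRoot.mk Q.mu P) = aeval (φ (yR Q.mu)) P := by
    intro P
    have : AdjoinRoot.mk Q.mu P = aeval (yR Q.mu) P := (AdjoinRoot.aeval_eq _).symm
    rw [this]
    exact (aeval_algHom_apply φ _ _).symm
  have hc0 : AdjoinRoot.mk Q.mu g ≠ 0 := by
    intro h
    have := constantCoeff_aeval g (φ (yR Q.mu))
    rw [← hφmk, h, map_zero, map_zero, hφ] at this
    exact hg0 this.symm
  have hcrd := hRED k (d' + 1) (D + 1) Q _ _ hd1 (Nat.succ_pos D) (mk_mem_F1 hFIL Q hgd hgc)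
  obtain ⟨b, h, -, -, hh0, hhd, hcb⟩ :=
    hPIG k _ _ Q (D + (D + 1) * D) _ hd1 (Nat.succ_pos D) hcrd hc0
  have hcor := hN0 d' k Q φ hinj hder
  have hcard : h.natDegree + 1 < {x0 : k | ∃ y : k, (at0 Q.mu x0).eval y = 0}.ncard := by
    by_contra hlt
    have h3 : 4 * (d' + 1) * (H (d' + 1) + 1) + N0 d' ≤
        ∑ d ∈ Finset.range (D + 1), (4 * (d + 1) * (H (d + 1) + 1) + N0 d) :=
      Finset.single_le_sum (f := fun d => 4 * (d + 1) * (H (d + 1) + 1) + N0 d)
        (fun _ _ => Nat.zero_le _) (Finset.mem_range.2 (by omega))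
    have h4 : {x0 : k | ∃ y : k, (at0 Q.mu x0).eval y = 0}.ncard ≤ H (d' + 1) + 1 := by
      have : h.natDegree ≤ H (d' + 1) := hhd
      omega
    have h5 : 4 * (d' + 1) * {x0 : k | ∃ y : k, (at0 Q.mu x0).eval y = 0}.ncard ≤
        4 * (d' + 1) * (H (d' + 1) + 1) := Nat.mul_le_mul_left _ h4
    omega
  obtain ⟨x0, ⟨y, hy⟩, hx0⟩ : ∃ x0 ∈ {x0 : k | ∃ y : k, (at0 Q.mu x0).eval y = 0},
      x0 ≠ 0 ∧ h.eval x0 ≠ 0 := by
    classical
    by_contra hcon
    push Not at hcon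
    have h2 : {x0 : k | ∃ y : k, (at0 Q.mu x0).eval y = 0} ⊆
        ((insert 0 h.roots.toFinset : Finset k) : Set k) := by
      intro x hx
      by_cases hx0 : x = 0
      · simp [hx0]
      · have := hcon x hx hx0
        simp [hh0, this]
    have h3 := Set.ncard_le_ncard h2 (Finset.finite_toSet _)
    rw [Set.ncard_coe_finset] at h3
    have h4 := Finset.card_insert_le 0 h.roots.toFinset
    have h5 := (Multiset.toFinset_card_le h.roots).trans (card_roots' h)
    omega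
  have hy' : eval₂ (evalRingHom x0) y Q.mu = 0 := by
    unfold at0 at hy
    rwa [eval_map] at hy
  have hlift : ∀ P, AdjoinRoot.lift (evalRingHom x0) y hy' (AdjoinRoot.mk Q.mu P) =
      (at0 P x0).eval y := by
    intro P
    rw [AdjoinRoot.lift_mk]
    unfold at0
    rw [eval_map]
  refine ⟨x0, y, hx0.1, ?_, ?_⟩
  · obtain ⟨ν, hν⟩ := hdvd
    rw [← hlift, hν, map_mul, AdjoinRoot.mk_self, zero_mul, map_zero]
  · intro hg
    apply hx0.2
    have h6 := congrArg (AdjoinRoot.lift (evalRingHom x0) y hy') hcb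
    rw [map_mul, hlift, hg, zero_mul] at h6
    have h7 : aeval (xR Q.mu) h = AdjoinRoot.mk Q.mu (C h) := by
      rw [AdjoinRoot.mk_C]
      have : (Algebra.ofId k[X] (AdjoinRoot Q.mu)).restrictScalars k = aeval (xR Q.mu) := by
        ext
        simp [xR]
      exact (congrArg (fun F => F h) this).symm
    rw [h7, hlift] at h6
    unfold at0 at h6
    simpa using h6.symm

end Pool.Agent.H57.CST
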