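import Pool.Agent.H51.CST.Targets

/-!
# Row FIN, first part: the Hensel branch and its minimal polynomial
-/

open Polynomial

namespace Pool.Agent.H57.CST

open Pool.Agent.H51.CST

theorem coeff_swap {k : Type} [Field k] (P : k[X][X]) (i j : ℕ) :
    ((Bivariate.swap P).coeff i).coeff j = (P.coeff j).coeff i := by
  induction P using Polynomial.induction_on' with
  | add p q hp hq => simp [hp, hq]
  | monomial n f =>
    rw [Bivariate.swap_monomial, coeff_mul_C, coeff_map, coeff_C_mul, coeff_X_pow,
      coeff_monomial]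
    by_cases h : j = n
    · subst h; simp
    · simp [h, Ne.symm h]

theorem natDegree_swap_le {k : Type} [Field k] (P : k[X][X]) (n : ℕ) :
    (Bivariate.swap P).natDegree ≤ n ↔ ∀ j, (P.coeff j).natDegree ≤ n := by
  constructor
  · intro h j
    rw [natDegree_le_iff_coeff_eq_zero]
    intro N hN
    rw [← coeff_swap, coeff_eq_zero_of_natDegree_lt (lt_of_le_of_lt h hN), coeff_zero]
  · intro h
    rw [natDegree_le_iff_coeff_eq_zero]
    intro N hN
    ext j
    rw [coeff_swap, coeff_eq_zero_of_natDegree_lt (lt_of_le_of_lt (h j) hN), coeff_zero]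

theorem coeff_natDegree_of_mul {k : Type} [Field k] {P Q : k[X][X]} {n : ℕ} (hP : P ≠ 0)
    (hQ : Q ≠ 0) (h : ∀ j, ((P * Q).coeff j).natDegree ≤ n) (j : ℕ) :
    (P.coeff j).natDegree ≤ n := by
  revert j
  rw [← natDegree_swap_le] at h ⊢
  rw [map_mul, natDegree_mul] at h
  · omega
  · simpa using hP
  · simpa using hQ

/-- the values at `0` of the expansion of a polynomial along a branch -/
theorem constantCoeff_aeval {k : Type} [Field k] (P : k[X][X]) (η : PowerSeries k) :
    PowerSeries.constantCoeff (aeval η P) = (at0 P 0).eval (PowerSeries.constantCoeff η) := by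
  unfold at0
  rw [aeval_def, hom_eval₂, eval_map]
  congr 1
  ext a
  · simp [PowerSeries.algebraMap_apply']
  · simp [PowerSeries.algebraMap_apply']

theorem hensel {k : Type} [Field k] {G : k[X][X]} (hG : G.Monic) {y0 : k}
    (h0 : (at0 G 0).eval y0 = 0) (h1 : (derivative (at0 G 0)).eval y0 ≠ 0) :
    ∃ η : PowerSeries k, PowerSeries.constantCoeff η = y0 ∧ aeval η G = 0 := by
  have key : ∀ (P : k[X][X]) (y : k), PowerSeries.constantCoeff
      ((P.map (algebraMap k[X] (PowerSeries k))).eval (PowerSeries.C y)) = (at0 P 0).eval y := by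
    intro P y
    rw [eval_map_algebraMap, constantCoeff_aeval]
    simp
  have hH : HenselianRing (PowerSeries k) (Ideal.span {PowerSeries.X}) := inferInstance
  obtain ⟨η, hη, hη0⟩ := hH.is_henselian (G.map (algebraMap k[X] (PowerSeries k))) (hG.map _)
    (PowerSeries.C y0) (by
      rw [Ideal.mem_span_singleton, PowerSeries.X_dvd_iff, key]
      exact h0) (by
      apply IsUnit.map
      rw [PowerSeries.isUnit_iff_constantCoeff, derivative_map, key, isUnit_iff_ne_zero]
      unfold at0 at h1 ⊢
      rwa [← derivative_map])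
  refine ⟨η, ?_, ?_⟩
  · rw [Ideal.mem_span_singleton, PowerSeries.X_dvd_iff, map_sub, sub_eq_zero] at hη0
    rw [hη0]
    simp
  · rwa [IsRoot.def, eval_map_algebraMap] at hη

theorem tf (k : Type) [Field k] : Module.IsTorsionFree k[X] (PowerSeries k) := by
  rw [Module.isTorsionFree_iff_algebraMap_injective]
  intro a b h
  rw [PowerSeries.algebraMap_apply', PowerSeries.algebraMap_apply'] at h
  simp only [Algebra.algebraMap_self, PowerSeries.map_id, id_eq] at h
  exact_mod_cast h

/-- the curve of the branch -/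
theorem branch {k : Type} [Field k] {G : k[X][X]} (hG : G.Monic) {D : ℕ} (hd : G.natDegree ≤ D)
    (hc : ∀ j, (G.coeff j).natDegree ≤ D) {y0 : k}
    (h0 : (at0 G 0).eval y0 = 0) (h1 : (derivative (at0 G 0)).eval y0 ≠ 0) :
    ∃ (d : ℕ) (Q : Dat k d (D + 1)) (φ : AdjoinRoot Q.mu →ₐ[k[X]] PowerSeries k),
      1 ≤ d ∧ d ≤ D ∧ Function.Injective φ ∧ aeval (yR Q.mu) (derivative Q.mu) ≠ 0 ∧ Q.mu ∣ G ∧
      PowerSeries.constantCoeff (φ (yR Q.mu)) = y0 := by
  have := tf k
  obtain ⟨η, hη0, hη⟩ := hensel hG h0 h1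
  have hint : IsIntegral k[X] η := ⟨G, hG, hη⟩
  have hmon := minpoly.monic hint
  obtain ⟨ν, hν⟩ := minpoly.isIntegrallyClosed_dvd hint hη
  have hνm : ν.Monic := by
    rw [hν] at hG
    exact hmon.of_mul_monic_left hG
  have hdeg : (minpoly k[X] η).natDegree ≤ D := by
    have := congrArg natDegree hν
    rw [hmon.natDegree_mul hνm] at this
    omega
  have hroot : eval₂ (Algebra.ofId k[X] (PowerSeries k)).toRingHom η (minpoly k[X] η) = 0 := by
    have := minpoly.aeval k[X] η
    rw [aeval_def] at this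
    exact this
  let φ : AdjoinRoot (minpoly k[X] η) →ₐ[k[X]] PowerSeries k :=
    AdjoinRoot.liftAlgHom (minpoly k[X] η) (Algebra.ofId k[X] (PowerSeries k)) η hroot
  have hφ : ∀ P, φ (AdjoinRoot.mk _ P) = aeval η P := by
    intro P
    rw [aeval_def]
    exact AdjoinRoot.lift_mk hroot _
  have hinj : Function.Injective φ := by
    rw [injective_iff_map_eq_zero]
    intro v hv
    obtain ⟨P, rfl⟩ := AdjoinRoot.mk_surjective v
    rw [hφ] at hv
    rw [AdjoinRoot.mk_eq_zero]
    exact minpoly.isIntegrallyClosed_dvd hint hv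
  have hdom : IsDomain (AdjoinRoot (minpoly k[X] η)) := hinj.isDomain φ.toRingHom
  refine ⟨_, ⟨minpoly k[X] η, hmon, rfl, ?_, hdom⟩, φ, minpoly.natDegree_pos hint, hdeg, hinj,
    ?_, ⟨ν, hν⟩, ?_⟩
  · intro j
    refine (coeff_natDegree_of_mul hmon.ne_zero hνm.ne_zero ?_ j).trans (Nat.le_succ D)
    rw [← hν]
    exact hc
  · intro h
    have h2 := congrArg φ h
    rw [map_zero] at h2
    have h3 : φ (aeval (yR (minpoly k[X] η)) (derivative (minpoly k[X] η))) =
        aeval η (derivative (minpoly k[X] η)) := by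
      have h4 : aeval (yR (minpoly k[X] η)) (derivative (minpoly k[X] η)) =
          AdjoinRoot.mk _ (derivative (minpoly k[X] η)) := AdjoinRoot.aeval_eq _
      rw [h4, hφ]
    rw [h3] at h2
    apply h1
    have h5 : aeval η (derivative G) = 0 := by
      rw [hν, derivative_mul, map_add, map_mul, map_mul, h2, minpoly.aeval, zero_mul, zero_mul,
        add_zero]
    have h7 := constantCoeff_aeval (derivative G) η
    rw [h5, map_zero, hη0] at h7
    refine Eq.trans ?_ h7.symm
    unfold at0
    rw [derivative_map]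
  · have h6 : φ (yR (minpoly k[X] η)) = η := by
      have := hφ X
      rwa [aeval_X] at this
    rw [h6, hη0]

end Pool.Agent.H57.CST
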