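import Pool.Agent.H51.CST.Targets

/-!
# Row LFT, first part: etale algebras with a point over a field with the property `PacL`
-/

open Polynomial

namespace Pool.Agent.H57.CST

open Pool.Agent.H51.CST

noncomputable section

/-- a quotient by as many equations as variables with invertible Jacobian is etale -/
theorem etale_naive {A ι : Type} [CommRing A] [Fintype ι] [DecidableEq ι]
    (v : ι → MvPolynomial ι A)
    (h : IsUnit (Ideal.Quotient.mk (Ideal.span (Set.range v))
      (Matrix.of fun i j => MvPolynomial.pderiv i (v j)).det)) :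
    Algebra.Etale A (MvPolynomial ι A ⧸ Ideal.span (Set.range v)) := by
  let P : Algebra.PreSubmersivePresentation A (MvPolynomial ι A ⧸ Ideal.span (Set.range v)) ι ι :=
    Algebra.PreSubmersivePresentation.naive (v := v) id Function.injective_id
  have hP : IsUnit P.jacobian := by
    rw [Algebra.PreSubmersivePresentation.jacobian_eq_jacobiMatrix_det]
    have : P.jacobiMatrix = Matrix.of fun i j => MvPolynomial.pderiv i (v j) := by
      ext i j : 2
      rw [Algebra.PreSubmersivePresentation.jacobiMatrix_apply]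
      rfl
    rw [this]
    exact h
  let P' : Algebra.SubmersivePresentation A (MvPolynomial ι A ⧸ Ideal.span (Set.range v)) ι ι :=
    ⟨P, hP⟩
  have : Algebra.IsStandardSmoothOfRelativeDimension 0 A
      (MvPolynomial ι A ⧸ Ideal.span (Set.range v)) :=
    P'.isStandardSmoothOfRelativeDimension (by simp [Algebra.Presentation.dimension])
  infer_instance

/-- the rational points off `x = 0` -/
theorem exists_point {k : Type} [Field k] (hk : PacL k) (S : Type) [CommRing S] [Algebra k[X] S]
    [Algebra.Etale k[X] S] (ψ : S →+* k) (hψ : ψ.comp (algebraMap k[X] S) = evalRingHom 0) :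
    ∃ (x : k) (χ : S →+* k), x ≠ 0 ∧ χ.comp (algebraMap k[X] S) = evalRingHom x := by
  have hQ : (RingHom.ker ψ).IsPrime := RingHom.ker_isPrime ψ
  have hE : Algebra.IsEtaleAt k[X] (RingHom.ker ψ) := by
    have : Algebra.FormallyEtale S (Localization.AtPrime (RingHom.ker ψ)) :=
      Algebra.FormallyEtale.of_isLocalization (RingHom.ker ψ).primeCompl
    exact Algebra.FormallyEtale.comp k[X] S _
  obtain ⟨f, hf, hstd⟩ := Algebra.IsEtaleAt.exists_isStandardEtale (R := k[X]) (RingHom.ker ψ)
  have hf' : IsUnit (ψ f) := by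
    rw [isUnit_iff_ne_zero]
    exact hf
  obtain ⟨P⟩ := hstd.nonempty_standardEtalePresentation
  let ψ' : Localization.Away f →+* k := IsLocalization.Away.lift f hf'
  have hψ' : ψ'.comp (algebraMap k[X] (Localization.Away f)) = evalRingHom 0 := by
    rw [← hψ, IsScalarTower.algebraMap_eq k[X] S (Localization.Away f), ← RingHom.comp_assoc]
    congr 1
    exact IsLocalization.Away.lift_comp f hf'
  have hev : ∀ F : k[X][X], ψ' (aeval P.x F) = (at0 F 0).eval (ψ' P.x) := by
    intro F
    rw [aeval_def, hom_eval₂]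
    unfold at0
    rw [eval_map, hψ']
  obtain ⟨x, y, hx, h1, h2⟩ := hk P.f P.g P.monic_f (ψ' P.x) (by
    rw [← hev, P.hasMap.1, map_zero]) (by
    have := P.hasMap.isUnit_derivative_f.map ψ'
    rw [hev, isUnit_iff_ne_zero] at this
    unfold at0 at this ⊢
    rwa [derivative_map]) (by
    have := P.hasMap.2.map ψ'
    rwa [hev, isUnit_iff_ne_zero] at this)
  let _ : Algebra k[X] k := (evalRingHom x).toAlgebra
  have hev2 : ∀ F : k[X][X], aeval y F = (at0 F x).eval y := by
    intro F
    rw [aeval_def]
    unfold at0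
    rw [eval_map]
    rfl
  have hmap : P.P.HasMap y := ⟨by rw [hev2, h1], by rw [hev2, isUnit_iff_ne_zero]; exact h2⟩
  let χ : Localization.Away f →ₐ[k[X]] k := (P.P.lift y hmap).comp P.equivRing.toAlgHom
  refine ⟨x, χ.toRingHom.comp (algebraMap S (Localization.Away f)), hx, ?_⟩
  rw [RingHom.comp_assoc, ← IsScalarTower.algebraMap_eq k[X] S (Localization.Away f)]
  exact χ.comp_algebraMap

/-- solvability of a system of equations near `x = 0` -/
theorem exists_zero {k : Type} [Field k] (hk : PacL k) {ι : Type} [Fintype ι] [DecidableEq ι]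
    (v : ι → MvPolynomial ι k[X]) (h : IsUnit (Ideal.Quotient.mk (Ideal.span (Set.range v))
      (Matrix.of fun i j => MvPolynomial.pderiv i (v j)).det)) (p0 : ι → k)
    (hp0 : ∀ i, MvPolynomial.eval₂Hom (evalRingHom 0) p0 (v i) = 0) :
    ∃ (x : k) (p : ι → k), x ≠ 0 ∧ ∀ i, MvPolynomial.eval₂Hom (evalRingHom x) p (v i) = 0 := by
  have := etale_naive v h
  let ψ : (MvPolynomial ι k[X] ⧸ Ideal.span (Set.range v)) →+* k :=
    Ideal.Quotient.lift _ (MvPolynomial.eval₂Hom (evalRingHom 0) p0) (by
      intro a ha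
      have : Ideal.span (Set.range v) ≤ RingHom.ker (MvPolynomial.eval₂Hom (evalRingHom 0) p0) := by
        rw [Ideal.span_le]
        rintro _ ⟨i, rfl⟩
        exact hp0 i
      exact this ha)
  obtain ⟨x, χ, hx, hχ⟩ := exists_point hk (MvPolynomial ι k[X] ⧸ Ideal.span (Set.range v)) ψ (by
    ext a
    · simp [ψ, IsScalarTower.algebraMap_apply k[X] (MvPolynomial ι k[X])]
    · simp [ψ, IsScalarTower.algebraMap_apply k[X] (MvPolynomial ι k[X])])
  refine ⟨x, fun i => χ (Ideal.Quotient.mk _ (MvPolynomial.X i)), hx, fun i => ?_⟩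
  have hh : MvPolynomial.eval₂Hom (evalRingHom x)
      (fun i => χ (Ideal.Quotient.mk _ (MvPolynomial.X i))) =
      χ.comp (Ideal.Quotient.mk (Ideal.span (Set.range v))) := by
    refine MvPolynomial.ringHom_ext' ?_ fun i => ?_
    · rw [← hχ]
      ext a
      · simp [IsScalarTower.algebraMap_apply k[X] (MvPolynomial ι k[X])]
      · simp [IsScalarTower.algebraMap_apply k[X] (MvPolynomial ι k[X])]
    · simp
  have hi : Ideal.Quotient.mk (Ideal.span (Set.range v)) (v i) = 0 :=
    Ideal.Quotient.eq_zero_iff_mem.2 (Ideal.subset_span ⟨i, rfl⟩)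
  rw [hh, RingHom.comp_apply, hi, map_zero]

end

end Pool.Agent.H57.CST
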